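import Mathlib

set_option autoImplicit false

namespace Pool.Agent.S4042Aux

open Finset

/-- Chinese remainder theorem for sums, two factors. -/
theorem crt2 (m k : ℕ) (hm : 0 < m) (hk : 0 < k) (hmk : Nat.Coprime m k) (f g : ℕ → ℝ)
    (hf : Function.Periodic f m) (hg : Function.Periodic g k) :
    ∑ s ∈ range (m * k), f s * g s = (∑ a ∈ range m, f a) * ∑ b ∈ range k, g b := by
  rw [Finset.sum_mul_sum, ← Finset.sum_product']
  have hmaps : Set.MapsTo (fun s : ℕ => (s % m, s % k)) (range (m * k) : Set ℕ)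
      (range m ×ˢ range k : Finset (ℕ × ℕ)) := by
    intro s _
    simp [Nat.mod_lt _ hm, Nat.mod_lt _ hk]
  have hinj : Set.InjOn (fun s : ℕ => (s % m, s % k)) (range (m * k) : Set ℕ) := by
    intro s hs t ht hst
    simp only [Prod.mk.injEq] at hst
    have h1 : s ≡ t [MOD m * k] := (Nat.modEq_and_modEq_iff_modEq_mul hmk).1 ⟨hst.1, hst.2⟩
    have hs' : s < m * k := by simpa using hs
    have ht' : t < m * k := by simpa using ht
    exact Nat.ModEq.eq_of_lt_of_lt h1 hs' ht'
  refine Finset.sum_nbij (fun s : ℕ => (s % m, s % k)) hmaps hinj ?_ ?_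
  · apply Finset.surjOn_of_injOn_of_card_le _ hmaps hinj
    simp [Finset.card_product]
  · intro s _
    simp only [hf.map_mod_nat, hg.map_mod_nat]

/-- Periodicity of a product over a finite set of moduli. -/
theorem periodic_prod (T : Finset ℕ) (w : ℕ → ℕ → ℝ)
    (hw : ∀ p ∈ T, Function.Periodic (w p) p) :
    Function.Periodic (fun s => ∏ p ∈ T, w p s) (∏ p ∈ T, p) := by
  intro s
  refine Finset.prod_congr rfl (fun p hp => ?_)
  obtain ⟨c, hc⟩ := Finset.dvd_prod_of_mem (fun q : ℕ => q) hp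
  have hc' : ∏ q ∈ T, q = c * p := by rw [mul_comm]; exact hc
  rw [hc']
  have := (hw p hp).nat_mul c
  simpa using this s

/-- Chinese remainder theorem for sums of products over a finite set of primes. -/
theorem crtN (T : Finset ℕ) (hT : ∀ p ∈ T, p.Prime) (w : ℕ → ℕ → ℝ)
    (hw : ∀ p ∈ T, Function.Periodic (w p) p) :
    ∑ s ∈ range (∏ p ∈ T, p), ∏ p ∈ T, w p s = ∏ p ∈ T, ∑ a ∈ range p, w p a := by
  induction T using Finset.induction_on with
  | empty => simp
  | insert q T hq ih =>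
    have hT' : ∀ p ∈ T, p.Prime := fun p hp => hT p (Finset.mem_insert_of_mem hp)
    have hw' : ∀ p ∈ T, Function.Periodic (w p) p := fun p hp => hw p (Finset.mem_insert_of_mem hp)
    have hqp : q.Prime := hT q (Finset.mem_insert_self _ _)
    rw [Finset.prod_insert hq, Finset.prod_insert hq, ← ih hT' hw']
    rw [← crt2 q (∏ p ∈ T, p) hqp.pos (Finset.prod_pos (fun p hp => (hT' p hp).pos)) ?_ (w q)
      (fun s => ∏ p ∈ T, w p s) (hw q (Finset.mem_insert_self _ _)) (periodic_prod T w hw')]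
    · exact Finset.sum_congr rfl (fun s _ => Finset.prod_insert hq)
    · apply Nat.Coprime.prod_right
      intro p hp
      exact (Nat.coprime_primes hqp (hT' p hp)).2 (fun h => hq (h ▸ hp))

theorem sum_range_mul_periodic (N q : ℕ) (F : ℕ → ℝ) (hF : Function.Periodic F N) :
    ∑ s ∈ range (q * N), F s = q * ∑ s ∈ range N, F s := by
  induction q with
  | zero => simp
  | succ q ih =>
    rw [Nat.add_mul, one_mul, Finset.sum_range_add, ih]
    push_cast
    rw [add_mul, one_mul]
    congr 1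
    refine Finset.sum_congr rfl (fun s _ => ?_)
    rw [add_comm]
    have := hF.nat_mul q
    simpa using this s

/-- Sum of a periodic bounded function over an initial segment. -/
theorem sum_range_periodic_le (N n : ℕ) (hN : 0 < N) (F : ℕ → ℝ) (hF : Function.Periodic F N)
    (M : ℝ) (hM : ∀ s, |F s| ≤ M) :
    ∑ s ∈ range n, F s ≤ (n : ℝ) / N * (∑ s ∈ range N, F s) + 2 * N * M := by
  have hM0 : 0 ≤ M := (abs_nonneg _).trans (hM 0)
  have hn : n = (n / N) * N + n % N := by rw [mul_comm]; exact (Nat.div_add_mod n N).symm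
  set q := n / N with hq
  set r := n % N with hr
  have hrN : r < N := Nat.mod_lt _ hN
  have hNr : (0 : ℝ) < N := by exact_mod_cast hN
  have hrN' : (r : ℝ) ≤ N := by exact_mod_cast hrN.le
  have hr0 : (0 : ℝ) ≤ r := Nat.cast_nonneg r
  have h1 : ∑ s ∈ range n, F s = q * (∑ s ∈ range N, F s) + ∑ i ∈ range r, F (q * N + i) := by
    conv_lhs => rw [hn]
    rw [Finset.sum_range_add, sum_range_mul_periodic N q F hF]
  have h2 : ∑ i ∈ range r, F (q * N + i) ≤ r * M := by
    calc ∑ i ∈ range r, F (q * N + i) ≤ ∑ i ∈ range r, M :=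
          Finset.sum_le_sum (fun i _ => (le_abs_self _).trans (hM _))
      _ = r * M := by simp
  have h3 : -(N * M) ≤ ∑ s ∈ range N, F s := by
    have : ∑ s ∈ range N, (-M) ≤ ∑ s ∈ range N, F s :=
      Finset.sum_le_sum (fun i _ => (abs_le.1 (hM i)).1)
    simpa using this
  have h4 : (n : ℝ) / N = q + r / N := by
    have : (n : ℝ) = q * N + r := by exact_mod_cast hn
    rw [this]
    field_simp
  rw [h1, h4, add_mul]
  have h5 : -(N * M) ≤ (r : ℝ) / N * ∑ s ∈ range N, F s := by
    have h6 : (r : ℝ) / N ≤ 1 := by rw [div_le_one hNr]; exact hrN'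
    have h7 : (0 : ℝ) ≤ r / N := by positivity
    have h8 : (0 : ℝ) ≤ N * M := by positivity
    nlinarith
  have h9 : (r : ℝ) * M ≤ N * M := mul_le_mul_of_nonneg_right hrN' hM0
  linarith

/-- The dual form of Selberg's upper bound sieve, for a family of periodic functions `u p`
with mean zero, indexed by primes. -/
theorem sieve_bound (n y : ℕ) (Q : Finset ℕ) (hQ : ∀ p ∈ Q, p.Prime)
    (D : Finset (Finset ℕ)) (hD : ∀ t ∈ D, (∀ p ∈ t, p.Prime ∧ p ∉ Q) ∧ ∏ p ∈ t, p ≤ y)
    (u : ℕ → ℕ → ℝ) (h : ℕ → ℝ)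
    (hper : ∀ p, Function.Periodic (u p) p)
    (hmean : ∀ p, p.Prime → ∑ a ∈ range p, u p a = 0)
    (hvar : ∀ p, p.Prime → ∑ a ∈ range p, (u p a) ^ 2 = p * h p)
    (hbd : ∀ p, p.Prime → ∀ s, |u p s| ≤ p)
    (S : Finset ℕ) (hS : S ⊆ range n)
    (hSQ : ∀ s ∈ S, ∀ p ∈ Q, ¬ p ∣ s)
    (hSu : ∀ s ∈ S, ∀ t ∈ D, ∀ p ∈ t, u p s = h p) :
    (S.card : ℝ) * (∑ t ∈ D, ∏ p ∈ t, h p) ^ 2 ≤
      n * (∏ p ∈ Q, (1 - 1 / (p : ℝ))) * (∑ t ∈ D, ∏ p ∈ t, h p) +
        2 * (∏ p ∈ Q, (p : ℝ)) * y ^ 6 := by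
  classical
  -- number of elements of D
  have hcard : D.card ≤ y := by
    have hinj : Set.InjOn (fun t : Finset ℕ => ∏ p ∈ t, p) (D : Set (Finset ℕ)) := by
      intro t ht t' ht' htt
      have h1 := Nat.primeFactors_prod (s := t) (fun p hp => ((hD t ht).1 p hp).1)
      have h2 := Nat.primeFactors_prod (s := t') (fun p hp => ((hD t' ht').1 p hp).1)
      simp only at htt
      rw [← h1, ← h2, htt]
    rw [← Finset.card_image_of_injOn hinj]
    have : D.image (fun t : Finset ℕ => ∏ p ∈ t, p) ⊆ Finset.Icc 1 y := by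
      intro m hm
      obtain ⟨t, ht, rfl⟩ := Finset.mem_image.1 hm
      rw [Finset.mem_Icc]
      exact ⟨Finset.prod_pos (fun p hp => ((hD t ht).1 p hp).1.pos), (hD t ht).2⟩
    have := Finset.card_le_card this
    simpa using this
  let W : ℕ → ℝ := fun s => ∏ p ∈ Q, (if p ∣ s then (0 : ℝ) else 1)
  have hW0 : ∀ s, 0 ≤ W s := fun s => Finset.prod_nonneg (fun p _ => by split_ifs <;> norm_num)
  have hW1 : ∀ s, W s ≤ 1 := fun s => Finset.prod_le_one
    (fun p _ => by split_ifs <;> norm_num) (fun p _ => by split_ifs <;> norm_num)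
  let U : Finset ℕ → ℕ → ℝ := fun t s => ∏ p ∈ t, u p s
  let H : Finset ℕ → ℝ := fun t => ∏ p ∈ t, h p
  let G : ℝ := ∑ t ∈ D, H t
  let Pi : ℝ := ∏ p ∈ Q, (1 - 1 / (p : ℝ))
  have hUb : ∀ t ∈ D, ∀ s, |U t s| ≤ y := by
    intro t ht s
    show |∏ p ∈ t, u p s| ≤ y
    rw [Finset.abs_prod]
    calc ∏ p ∈ t, |u p s| ≤ ∏ p ∈ t, (p : ℝ) :=
          Finset.prod_le_prod (fun p _ => abs_nonneg _)
            (fun p hp => hbd p ((hD t ht).1 p hp).1 s)
      _ = ((∏ p ∈ t, p : ℕ) : ℝ) := by push_cast; rfl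
      _ ≤ y := by exact_mod_cast (hD t ht).2
  have hS1 : (S.card : ℝ) * G ^ 2 ≤ ∑ s ∈ range n, W s * (∑ t ∈ D, U t s) ^ 2 := by
    calc (S.card : ℝ) * G ^ 2 = ∑ s ∈ S, G ^ 2 := by simp
      _ = ∑ s ∈ S, W s * (∑ t ∈ D, U t s) ^ 2 := by
          refine Finset.sum_congr rfl (fun s hs => ?_)
          have h1 : W s = 1 := by
            show ∏ p ∈ Q, (if p ∣ s then (0 : ℝ) else 1) = 1
            refine Finset.prod_eq_one (fun p hp => ?_)
            rw [if_neg (hSQ s hs p hp)]
          have h2 : ∑ t ∈ D, U t s = G := by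
            refine Finset.sum_congr rfl (fun t ht => ?_)
            exact Finset.prod_congr rfl (fun p hp => hSu s hs t ht p hp)
          rw [h1, h2, one_mul]
      _ ≤ ∑ s ∈ range n, W s * (∑ t ∈ D, U t s) ^ 2 := by
          apply Finset.sum_le_sum_of_subset_of_nonneg hS
          intro s _ _
          exact mul_nonneg (hW0 s) (sq_nonneg _)
  have hS2 : ∑ s ∈ range n, W s * (∑ t ∈ D, U t s) ^ 2 =
      ∑ t ∈ D, ∑ t' ∈ D, ∑ s ∈ range n, W s * (U t s * U t' s) := by
    have h1 : ∀ s, W s * (∑ t ∈ D, U t s) ^ 2 = ∑ t ∈ D, ∑ t' ∈ D, W s * (U t s * U t' s) := by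
      intro s
      rw [sq, Finset.sum_mul_sum, Finset.mul_sum]
      exact Finset.sum_congr rfl (fun t _ => Finset.mul_sum _ _ _)
    simp only [h1]
    rw [Finset.sum_comm]
    refine Finset.sum_congr rfl (fun t _ => ?_)
    rw [Finset.sum_comm]
  have hpair : ∀ t ∈ D, ∀ t' ∈ D, ∑ s ∈ range n, W s * (U t s * U t' s) ≤
      (if t = t' then n * Pi * H t else 0) + 2 * (∏ p ∈ Q, (p : ℝ)) * y ^ 4 := by
    intro t ht t' ht'
    let T : Finset ℕ := Q ∪ (t ∪ t')
    have hdisj : Disjoint Q (t ∪ t') := by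
      rw [Finset.disjoint_left]
      intro p hp hp'
      rcases Finset.mem_union.1 hp' with h1 | h1
      · exact ((hD t ht).1 p h1).2 hp
      · exact ((hD t' ht').1 p h1).2 hp
    have hTp : ∀ p ∈ T, p.Prime := by
      intro p hp
      rcases Finset.mem_union.1 hp with h1 | h1
      · exact hQ p h1
      · rcases Finset.mem_union.1 h1 with h2 | h2
        · exact ((hD t ht).1 p h2).1
        · exact ((hD t' ht').1 p h2).1
    let v : ℕ → ℕ → ℝ := fun p s =>
      if p ∈ Q then (if p ∣ s then 0 else 1) else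
        (if p ∈ t then u p s else 1) * (if p ∈ t' then u p s else 1)
    have hvper : ∀ p ∈ T, Function.Periodic (v p) p := by
      intro p _ s
      show (if p ∈ Q then (if p ∣ s + p then (0 : ℝ) else 1) else
        (if p ∈ t then u p (s + p) else 1) * (if p ∈ t' then u p (s + p) else 1)) = _
      rw [hper p s]
      simp only [Nat.dvd_add_self_right]
      rfl
    have hF : ∀ s, W s * (U t s * U t' s) = ∏ p ∈ T, v p s := by
      intro s
      rw [Finset.prod_union hdisj]
      congr 1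
      · refine Finset.prod_congr rfl (fun p hp => ?_)
        show _ = if p ∈ Q then (if p ∣ s then (0 : ℝ) else 1) else _
        rw [if_pos hp]
      · have h1 : ∏ p ∈ t ∪ t', v p s = ∏ p ∈ t ∪ t', ((if p ∈ t then u p s else 1) *
            (if p ∈ t' then u p s else 1)) := by
          refine Finset.prod_congr rfl (fun p hp => ?_)
          show (if p ∈ Q then (if p ∣ s then (0 : ℝ) else 1) else _) = _
          rw [if_neg (fun hq => (Finset.disjoint_left.1 hdisj) hq hp)]
        rw [h1, Finset.prod_mul_distrib]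
        congr 1
        · rw [← Finset.prod_subset (Finset.subset_union_left (s₁ := t) (s₂ := t'))]
          · exact Finset.prod_congr rfl (fun p hp => by rw [if_pos hp])
          · intro p _ hp
            rw [if_neg hp]
        · rw [← Finset.prod_subset (Finset.subset_union_right (s₁ := t) (s₂ := t'))]
          · exact Finset.prod_congr rfl (fun p hp => by rw [if_pos hp])
          · intro p _ hp
            rw [if_neg hp]
    have hbdF : ∀ s, |∏ p ∈ T, v p s| ≤ (y : ℝ) ^ 2 := by
      intro s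
      rw [← hF, abs_mul, abs_mul, abs_of_nonneg (hW0 s)]
      have h1 := hUb t ht s
      have h2 := hUb t' ht' s
      have h3 := hW0 s
      have h4 := hW1 s
      have h5 : |U t s| * |U t' s| ≤ (y : ℝ) * y :=
        mul_le_mul h1 h2 (abs_nonneg _) (Nat.cast_nonneg _)
      have h6 : 0 ≤ |U t s| * |U t' s| := by positivity
      nlinarith
    have hNpos : 0 < ∏ p ∈ T, p := Finset.prod_pos (fun p hp => (hTp p hp).pos)
    have hmain := sum_range_periodic_le (∏ p ∈ T, p) n hNpos (fun s => ∏ p ∈ T, v p s)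
      (periodic_prod T v hvper) ((y : ℝ) ^ 2) hbdF
    rw [crtN T hTp v hvper] at hmain
    have hNle : ((∏ p ∈ T, p : ℕ) : ℝ) ≤ (∏ p ∈ Q, (p : ℝ)) * y ^ 2 := by
      have h1 : ∏ p ∈ T, p = (∏ p ∈ Q, p) * ∏ p ∈ t ∪ t', p := Finset.prod_union hdisj
      have h2 : ∏ p ∈ t ∪ t', p ≤ (∏ p ∈ t, p) * ∏ p ∈ t', p := by
        rw [← Finset.prod_union_inter]
        refine Nat.le_mul_of_pos_right _ (Finset.prod_pos (fun p hp => ?_))
        exact ((hD t ht).1 p (Finset.mem_inter.1 hp).1).1.pos
      have h3 : ∏ p ∈ t ∪ t', p ≤ y ^ 2 := by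
        rw [sq]
        exact h2.trans (Nat.mul_le_mul (hD t ht).2 (hD t' ht').2)
      rw [h1]
      push_cast
      have h3' : ((∏ p ∈ t ∪ t', p : ℕ) : ℝ) ≤ ((y ^ 2 : ℕ) : ℝ) := Nat.cast_le.2 h3
      push_cast at h3'
      exact mul_le_mul_of_nonneg_left h3' (Finset.prod_nonneg (fun p _ => Nat.cast_nonneg _))
    have herr : 2 * ((∏ p ∈ T, p : ℕ) : ℝ) * (y : ℝ) ^ 2 ≤ 2 * (∏ p ∈ Q, (p : ℝ)) * y ^ 4 := by
      have : (0 : ℝ) ≤ (y : ℝ) ^ 2 := by positivity
      nlinarith
    have hmn : (n : ℝ) / ((∏ p ∈ T, p : ℕ) : ℝ) * ∏ p ∈ T, ∑ a ∈ range p, v p a =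
        (if t = t' then n * Pi * H t else 0) := by
      split_ifs with htt
      · subst htt
        have hTt : T = Q ∪ t := by
          show Q ∪ (t ∪ t) = Q ∪ t
          rw [Finset.union_idempotent]
        have hdisj' : Disjoint Q t := by
          rw [Finset.union_idempotent] at hdisj
          exact hdisj
        rw [hTt, Finset.prod_union hdisj', Finset.prod_union hdisj']
        have h1 : ∏ p ∈ Q, ∑ a ∈ range p, v p a = ∏ p ∈ Q, ((p : ℝ) - 1) := by
          refine Finset.prod_congr rfl (fun p hp => ?_)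
          have hpp := hQ p hp
          have h2 : ∀ a ∈ range p, v p a = if a = 0 then 0 else 1 := by
            intro a ha
            show (if p ∈ Q then (if p ∣ a then (0 : ℝ) else 1) else _) = _
            rw [if_pos hp]
            by_cases ha0 : a = 0
            · simp [ha0]
            · rw [if_neg ha0, if_neg]
              intro hdv
              exact ha0 (Nat.eq_zero_of_dvd_of_lt hdv (Finset.mem_range.1 ha))
          rw [Finset.sum_congr rfl h2]
          have h3 : ∀ a ∈ range p, (if a = 0 then (0 : ℝ) else 1) = 1 - (if a = 0 then 1 else 0) := by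
            intro a _
            split_ifs <;> norm_num
          rw [Finset.sum_congr rfl h3, Finset.sum_sub_distrib, Finset.sum_ite_eq']
          simp [hpp.pos]
        have h2 : ∏ p ∈ t, ∑ a ∈ range p, v p a = ∏ p ∈ t, ((p : ℝ) * h p) := by
          refine Finset.prod_congr rfl (fun p hp => ?_)
          rw [← hvar p ((hD t ht).1 p hp).1]
          refine Finset.sum_congr rfl (fun a _ => ?_)
          show (if p ∈ Q then (if p ∣ a then (0 : ℝ) else 1) else
            (if p ∈ t then u p a else 1) * (if p ∈ t then u p a else 1)) = _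
          rw [if_neg ((hD t ht).1 p hp).2, if_pos hp, sq]
        rw [h1, h2, Finset.prod_mul_distrib]
        push_cast
        have h3 : (∏ p ∈ t, (p : ℝ)) ≠ 0 :=
          Finset.prod_ne_zero_iff.2 (fun p hp => by
            exact_mod_cast ((hD t ht).1 p hp).1.ne_zero)
        have h4 : (∏ p ∈ Q, (p : ℝ)) ≠ 0 :=
          Finset.prod_ne_zero_iff.2 (fun p hp => by exact_mod_cast (hQ p hp).ne_zero)
        have h5 : ∏ p ∈ Q, ((p : ℝ) - 1) = (∏ p ∈ Q, (p : ℝ)) * Pi := by
          show _ = (∏ p ∈ Q, (p : ℝ)) * ∏ p ∈ Q, (1 - 1 / (p : ℝ))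
          rw [← Finset.prod_mul_distrib]
          refine Finset.prod_congr rfl (fun p hp => ?_)
          have : (p : ℝ) ≠ 0 := by exact_mod_cast (hQ p hp).ne_zero
          field_simp
        rw [h5]
        show _ = n * Pi * ∏ p ∈ t, h p
        field_simp
      · have : ∏ p ∈ T, ∑ a ∈ range p, v p a = 0 := by
          have hex : ∃ p, (p ∈ t ∧ p ∉ t') ∨ (p ∉ t ∧ p ∈ t') := by
            by_contra hcon
            push Not at hcon
            apply htt
            ext p
            constructor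
            · exact fun hp => (hcon p).1 hp
            · intro hp
              by_contra hpt
              exact (hcon p).2 hpt hp
          obtain ⟨p, hp⟩ := hex
          have hpT : p ∈ t ∪ t' := by
            rcases hp with hp | hp
            · exact Finset.mem_union_left _ hp.1
            · exact Finset.mem_union_right _ hp.2
          have hpT' : p ∈ T := Finset.mem_union_right _ hpT
          apply Finset.prod_eq_zero hpT'
          rw [← hmean p (hTp p hpT')]
          refine Finset.sum_congr rfl (fun a _ => ?_)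
          show (if p ∈ Q then (if p ∣ a then (0 : ℝ) else 1) else
            (if p ∈ t then u p a else 1) * (if p ∈ t' then u p a else 1)) = _
          rw [if_neg (fun hq => (Finset.disjoint_left.1 hdisj) hq hpT)]
          rcases hp with hp | hp
          · rw [if_pos hp.1, if_neg hp.2, mul_one]
          · rw [if_neg hp.1, if_pos hp.2, one_mul]
        rw [this, mul_zero]
    rw [hmn] at hmain
    calc ∑ s ∈ range n, W s * (U t s * U t' s) = ∑ s ∈ range n, ∏ p ∈ T, v p s :=
          Finset.sum_congr rfl (fun s _ => hF s)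
      _ ≤ _ := hmain
      _ ≤ _ := by linarith
  calc (S.card : ℝ) * (∑ t ∈ D, ∏ p ∈ t, h p) ^ 2 = (S.card : ℝ) * G ^ 2 := rfl
    _ ≤ ∑ s ∈ range n, W s * (∑ t ∈ D, U t s) ^ 2 := hS1
    _ = ∑ t ∈ D, ∑ t' ∈ D, ∑ s ∈ range n, W s * (U t s * U t' s) := hS2
    _ ≤ ∑ t ∈ D, ∑ t' ∈ D, ((if t = t' then n * Pi * H t else 0) +
          2 * (∏ p ∈ Q, (p : ℝ)) * y ^ 4) :=
        Finset.sum_le_sum (fun t ht => Finset.sum_le_sum (fun t' ht' => hpair t ht t' ht'))
    _ = n * Pi * G + D.card * (D.card * (2 * (∏ p ∈ Q, (p : ℝ)) * y ^ 4)) := by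
        simp only [Finset.sum_add_distrib, Finset.sum_const, nsmul_eq_mul]
        congr 1
        show _ = n * Pi * ∑ t ∈ D, H t
        rw [Finset.mul_sum]
        refine Finset.sum_congr rfl (fun t ht => ?_)
        rw [Finset.sum_ite_eq]
        rw [if_pos ht]
    _ ≤ n * Pi * G + 2 * (∏ p ∈ Q, (p : ℝ)) * y ^ 6 := by
        have hc : (D.card : ℝ) ≤ y := by exact_mod_cast hcard
        have hc0 : (0 : ℝ) ≤ D.card := Nat.cast_nonneg _
        have hE : (0 : ℝ) ≤ 2 * (∏ p ∈ Q, (p : ℝ)) * y ^ 4 := by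
          have : (0 : ℝ) ≤ ∏ p ∈ Q, (p : ℝ) := Finset.prod_nonneg (fun p _ => Nat.cast_nonneg _)
          positivity
        have h1 : (D.card : ℝ) * (D.card * (2 * (∏ p ∈ Q, (p : ℝ)) * y ^ 4)) ≤
            y * (y * (2 * (∏ p ∈ Q, (p : ℝ)) * y ^ 4)) := by
          apply mul_le_mul hc _ (by positivity) (by positivity)
          exact mul_le_mul_of_nonneg_right hc hE
        have h2 : (y : ℝ) * (y * (2 * (∏ p ∈ Q, (p : ℝ)) * y ^ 4)) =
            2 * (∏ p ∈ Q, (p : ℝ)) * y ^ 6 := by ring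
        linarith
    _ = _ := rfl

end Pool.Agent.S4042Aux
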