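import Pool.Agent.S4042Aux.Primes34
import Pool.Agent.S4042Aux.Sieve
import Pool.Agent.S4042Aux.Lower

set_option autoImplicit false

namespace Pool.Agent.S4042Aux

open Finset

/-- number of roots of `n^2 + a^2` modulo `p` -/
def rhoN (n p : ℕ) : ℕ := ((range p).filter (fun a => p ∣ n ^ 2 + a ^ 2)).card

noncomputable def hN (n p : ℕ) : ℝ := (rhoN n p : ℝ) / ((p : ℝ) - rhoN n p)

noncomputable def uN (n p s : ℕ) : ℝ := if p ∣ n ^ 2 + s ^ 2 then -1 else hN n p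

theorem rhoN_lt (n p : ℕ) (hp : p.Prime) : rhoN n p < p := by
  unfold rhoN
  conv_rhs => rw [← Finset.card_range p]
  apply Finset.card_lt_card
  rw [Finset.filter_ssubset]
  by_cases hn : p ∣ n
  · refine ⟨1, mem_range.2 hp.one_lt, ?_⟩
    intro h
    have h1 : p ∣ n ^ 2 := dvd_pow hn two_ne_zero
    have h2 := (Nat.dvd_add_right h1).1 h
    rw [one_pow] at h2
    exact hp.one_lt.ne' (Nat.dvd_one.1 h2)
  · refine ⟨0, mem_range.2 hp.pos, ?_⟩
    intro h
    apply hn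
    rw [zero_pow two_ne_zero, add_zero] at h
    exact hp.dvd_of_dvd_pow h

theorem hN_nonneg (n p : ℕ) (hp : p.Prime) : 0 ≤ hN n p := by
  have h1 : (rhoN n p : ℝ) < p := by exact_mod_cast rhoN_lt n p hp
  unfold hN
  exact div_nonneg (Nat.cast_nonneg _) (by linarith)

theorem uN_periodic (n p : ℕ) : Function.Periodic (uN n p) p := by
  intro s
  have h : p ∣ n ^ 2 + (s + p) ^ 2 ↔ p ∣ n ^ 2 + s ^ 2 := by
    have e : n ^ 2 + (s + p) ^ 2 = (n ^ 2 + s ^ 2) + p * (2 * s + p) := by ring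
    rw [e]
    exact Nat.dvd_add_left (dvd_mul_right _ _)
  unfold uN
  simp only [h]

theorem sum_ite_rho (n p : ℕ) (x y : ℝ) :
    ∑ a ∈ range p, (if p ∣ n ^ 2 + a ^ 2 then x else y) =
      (rhoN n p : ℝ) * x + ((p : ℝ) - rhoN n p) * y := by
  rw [Finset.sum_ite, Finset.sum_const, Finset.sum_const, nsmul_eq_mul, nsmul_eq_mul]
  have h1 := Finset.card_filter_add_card_filter_not (s := range p) (fun a => p ∣ n ^ 2 + a ^ 2)
  rw [card_range] at h1
  have h2 : (((range p).filter (fun a => ¬ p ∣ n ^ 2 + a ^ 2)).card : ℝ) =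
      (p : ℝ) - rhoN n p := by
    have : ((rhoN n p : ℕ) : ℝ) + (((range p).filter (fun a => ¬ p ∣ n ^ 2 + a ^ 2)).card : ℝ) =
        p := by exact_mod_cast h1
    linarith
  rw [h2]
  rfl

theorem uN_mean (n p : ℕ) (hp : p.Prime) : ∑ a ∈ range p, uN n p a = 0 := by
  have h1 : (rhoN n p : ℝ) < p := by exact_mod_cast rhoN_lt n p hp
  unfold uN
  rw [sum_ite_rho, hN, mul_div_cancel₀ _ (by linarith : (p : ℝ) - rhoN n p ≠ 0)]
  ring

theorem uN_var (n p : ℕ) (hp : p.Prime) : ∑ a ∈ range p, (uN n p a) ^ 2 = p * hN n p := by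
  have h1 : (rhoN n p : ℝ) < p := by exact_mod_cast rhoN_lt n p hp
  have h2 : ∀ a ∈ range p, (uN n p a) ^ 2 = if p ∣ n ^ 2 + a ^ 2 then 1 else (hN n p) ^ 2 := by
    intro a _
    unfold uN
    split_ifs <;> norm_num
  rw [Finset.sum_congr rfl h2, sum_ite_rho, hN]
  have h3 : (p : ℝ) - rhoN n p ≠ 0 := by linarith
  field_simp
  ring

theorem uN_bd (n p : ℕ) (hp : p.Prime) (s : ℕ) : |uN n p s| ≤ p := by
  have hp1 : (1 : ℝ) ≤ p := by exact_mod_cast hp.one_le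
  have hlt := rhoN_lt n p hp
  have h1 : (rhoN n p : ℝ) + 1 ≤ p := by exact_mod_cast hlt
  unfold uN
  split_ifs
  · rw [abs_neg, abs_one]; exact hp1
  · rw [abs_of_nonneg (hN_nonneg n p hp)]
    unfold hN
    have h0 : (0 : ℝ) ≤ rhoN n p := Nat.cast_nonneg _
    have h3 : (rhoN n p : ℝ) / ((p : ℝ) - rhoN n p) ≤ rhoN n p :=
      div_le_self h0 (by linarith)
    linarith

theorem rho1_le (n p : ℕ) (hp : p.Prime) (hn : ¬ p ∣ n) : rho1 p ≤ rhoN n p := by
  unfold rho1 rhoN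
  refine Finset.card_le_card_of_injOn (fun a => (a * n) % p) ?_ ?_
  · intro a ha
    simp only [coe_filter, mem_range, Set.mem_ofPred_eq] at ha ⊢
    refine ⟨Nat.mod_lt _ hp.pos, ?_⟩
    obtain ⟨_, h1⟩ := ha
    have h2 : n ^ 2 + (a * n % p) ^ 2 ≡ n ^ 2 + (a * n) ^ 2 [MOD p] :=
      Nat.ModEq.add_left _ ((Nat.mod_modEq _ _).pow 2)
    rw [← Nat.modEq_zero_iff_dvd] at h1 ⊢
    have h3 : n ^ 2 + (a * n) ^ 2 = n ^ 2 * (1 + a ^ 2) := by ring
    rw [h3] at h2
    have h4 := h1.mul_left (n ^ 2)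
    rw [mul_zero] at h4
    exact h2.trans h4
  · intro a ha a' ha' h
    simp only [coe_filter, mem_range, Set.mem_ofPred_eq] at ha ha'
    simp only at h
    have h1 : a * n ≡ a' * n [MOD p] := h
    have hc : Nat.gcd p n = 1 := (Nat.Prime.coprime_iff_not_dvd hp).2 hn
    have h2 := Nat.ModEq.cancel_right_of_coprime hc h1
    exact Nat.ModEq.eq_of_lt_of_lt h2 ha.1 ha'.1

theorem term_le (n p : ℕ) (hp : p.Prime) (hn : ¬ p ∣ n) :
    (rho1 p : ℝ) / ((p : ℝ) - 1) ≤ hN n p := by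
  rcases Nat.eq_zero_or_pos (rho1 p) with h0 | h0
  · rw [h0, Nat.cast_zero, zero_div]
    exact hN_nonneg n p hp
  · have h1 : (rho1 p : ℝ) ≤ rhoN n p := by exact_mod_cast rho1_le n p hp hn
    have h2 : (1 : ℝ) ≤ rho1 p := by exact_mod_cast h0
    have h3 : (rhoN n p : ℝ) < p := by exact_mod_cast rhoN_lt n p hp
    unfold hN
    exact div_le_div₀ (by linarith) h1 (by linarith) (by linarith)

/-- The main estimate: there is `n > 1` with `5 * #{1 ≤ s < n : n^2 + s^2 prime} < π(n)`. -/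
theorem exists_bad : ∃ n : ℕ, 1 < n ∧
    5 * ((Ico 1 n).filter (fun s => (n ^ 2 + s ^ 2).Prime)).card < Nat.primeCounting n := by
  obtain ⟨Q, hQ, hPi⟩ := exists_small_prod (1 / 40000) (by norm_num)
  have hQp : ∀ p ∈ Q, p.Prime := fun p hp => (hQ p hp).1
  set P := ∏ p ∈ Q, p with hPdef
  have hQne : Q.Nonempty := by
    rw [Finset.nonempty_iff_ne_empty]
    rintro rfl
    rw [Finset.prod_empty] at hPi
    norm_num at hPi
  have hP3 : 3 ≤ P := by
    obtain ⟨q, hq⟩ := hQne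
    have h1 : q ∣ P := Finset.dvd_prod_of_mem (fun q : ℕ => q) hq
    have h2 : 0 < P := Finset.prod_pos (fun p hp => (hQp p hp).pos)
    have h3 := Nat.le_of_dvd h2 h1
    have h4 := (hQ q hq).2
    omega
  set z := P ^ 192 with hz
  set n := P ^ 768 with hn
  set Y := P ^ 32 with hY
  set y := 2 * Y ^ 2 with hy
  have hPpos : 0 < P := by omega
  have hnz : n = z ^ 4 := by rw [hn, hz, ← pow_mul]
  have hyz : y ^ 6 = 64 * z ^ 2 := by
    rw [hy, hY, hz, mul_pow, ← pow_mul, ← pow_mul, ← pow_mul]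
    norm_num
  have hzP : 6561 * P ≤ z := by
    have h1 : z = P * P ^ 191 := by rw [hz, ← pow_succ']
    have h2 : 6561 ≤ P ^ 191 := by
      calc 6561 = 3 ^ 8 := by norm_num
        _ ≤ P ^ 8 := Nat.pow_le_pow_left hP3 8
        _ ≤ P ^ 191 := Nat.pow_le_pow_right hPpos (by norm_num)
    rw [h1, mul_comm 6561]
    exact Nat.mul_le_mul_left _ h2
  have hyn : y ≤ n := by
    have h1 : y = 2 * P ^ 64 := by rw [hy, hY, ← pow_mul]
    rw [h1, hn]
    calc 2 * P ^ 64 ≤ P * P ^ 64 := Nat.mul_le_mul_right _ (by omega)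
      _ = P ^ 65 := by rw [← pow_succ']
      _ ≤ P ^ 768 := Nat.pow_le_pow_right hPpos (by norm_num)
  have hn1 : 1 < n := Nat.one_lt_pow (by norm_num) (by omega)
  have hPr3 : (3 : ℝ) ≤ P := by exact_mod_cast hP3
  have hlogP : 1 ≤ Real.log P := by
    rw [Real.le_log_iff_exp_le (by linarith)]
    have := Real.exp_one_lt_d9
    linarith
  have hlogn : Real.log n = 768 * Real.log P := by
    rw [hn]; push_cast; rw [Real.log_pow]; norm_num
  have hYpos : (0 : ℝ) < Y := by rw [hY]; positivity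
  have hlogY : Real.log Y = 32 * Real.log P := by
    rw [hY]; push_cast; rw [Real.log_pow]; norm_num
  refine ⟨n, hn1, ?_⟩
  have hdvd_n : ∀ p, p.Prime → (p ∣ n ↔ p ∈ Q) := by
    intro p hp
    constructor
    · intro h
      have h1 : p ∣ P := hp.dvd_of_dvd_pow h
      obtain ⟨q, hq, hpq⟩ := (Prime.dvd_finsetProd_iff hp.prime _).1 h1
      rw [(Nat.prime_dvd_prime_iff_eq hp (hQp q hq)).1 hpq]
      exact hq
    · intro h
      have h1 : p ∣ P := Finset.dvd_prod_of_mem (fun q : ℕ => q) h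
      exact dvd_pow h1 (by norm_num)
  clear_value n z Y y
  set S := (Ico 1 n).filter (fun s => (n ^ 2 + s ^ 2).Prime) with hS
  -- no small prime divides n^2 + s^2
  have hnodiv : ∀ s ∈ S, ∀ p, p.Prime → p ≤ n → ¬ p ∣ n ^ 2 + s ^ 2 := by
    intro s hs p hp hpn hd
    rw [hS, mem_filter, mem_Ico] at hs
    have h1 := (Nat.prime_dvd_prime_iff_eq hp hs.2).1 hd
    have h2 : 0 < s ^ 2 := by
      have := hs.1.1
      positivity
    have h3 : n ≤ n ^ 2 := by nlinarith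
    omega
  have hsieve := sieve_bound n y Q hQp (idx Q y)
    (fun t ht => ⟨fun p hp => ⟨((mem_idx ht).1 p hp).1, ((mem_idx ht).1 p hp).2.1⟩, (mem_idx ht).2⟩)
    (uN n) (hN n) (uN_periodic n) (uN_mean n) (uN_var n) (uN_bd n) S
    (by
      intro s hs
      rw [hS, mem_filter, mem_Ico] at hs
      exact mem_range.2 hs.1.2)
    (by
      intro s hs p hp hps
      have hpp := hQp p hp
      have hpn : p ∣ n := (hdvd_n p hpp).2 hp
      apply hnodiv s hs p hpp (Nat.le_of_dvd (by omega) hpn)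
      exact dvd_add (dvd_pow hpn two_ne_zero) (dvd_pow hps two_ne_zero))
    (by
      intro s hs t ht p hp
      obtain ⟨hpp, _, hpy⟩ := (mem_idx ht).1 p hp
      unfold uN
      rw [if_neg (hnodiv s hs p hpp (hpy.trans hyn))])
  set G : ℝ := ∑ t ∈ idx Q y, ∏ p ∈ t, hN n p with hG
  set Pi : ℝ := ∏ p ∈ Q, (1 - 1 / (p : ℝ)) with hPidef
  have hGlow : (1 / 16 : ℝ) * Real.log ((Y / 2 : ℕ) + 1) ≤ G := by
    refine (G_lower Q hQ Y y hy.ge).trans ?_
    refine Finset.sum_le_sum (fun t ht => ?_)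
    refine Finset.prod_le_prod (fun p hp => ?_) (fun p hp => ?_)
    · have h2 : (2 : ℝ) ≤ p := by exact_mod_cast ((mem_idx ht).1 p hp).1.two_le
      exact div_nonneg (Nat.cast_nonneg _) (by linarith)
    · obtain ⟨hpp, hpQ, _⟩ := (mem_idx ht).1 p hp
      exact term_le n p hpp (fun h => hpQ ((hdvd_n p hpp).1 h))
  have hgl : Real.log n ≤ 768 * G := by
    have h1 : Real.log ((Y : ℝ) / 2) ≤ Real.log ((Y / 2 : ℕ) + 1) := by
      apply Real.log_le_log
      · linarith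
      · have h2 : Y ≤ 2 * (Y / 2 + 1) := by omega
        have h3 : (Y : ℝ) ≤ 2 * ((Y / 2 : ℕ) + 1) := by exact_mod_cast h2
        linarith
    have h2 : Real.log ((Y : ℝ) / 2) = 32 * Real.log P - Real.log 2 := by
      rw [Real.log_div hYpos.ne' (by norm_num), hlogY]
    have h3 : Real.log 2 ≤ 1 := by
      have := Real.log_two_lt_d9
      linarith
    rw [hlogn]
    have h4 : 16 * ((1 / 16 : ℝ) * Real.log ((Y / 2 : ℕ) + 1)) ≤ 16 * G :=
      mul_le_mul_of_nonneg_left hGlow (by norm_num)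
    nlinarith
  have hG1 : 1 ≤ G := by
    rw [hlogn] at hgl
    linarith
  have hcastP : (∏ p ∈ Q, (p : ℝ)) = P := by rw [hPdef]; push_cast; rfl
  rw [hcastP] at hsieve
  have hy6 : ((y : ℝ)) ^ 6 = 64 * (z : ℝ) ^ 2 := by exact_mod_cast hyz
  rw [hy6] at hsieve
  have hPi0 : 0 ≤ Pi := by
    rw [hPidef]
    refine Finset.prod_nonneg (fun p hp => ?_)
    have h2 : (2 : ℝ) ≤ p := by exact_mod_cast (hQp p hp).two_le
    have : 1 / (p : ℝ) ≤ 1 := by
      rw [div_le_one (by linarith)]; linarith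
    linarith
  have hz0 : (0 : ℝ) ≤ z := Nat.cast_nonneg _
  have hnr : (n : ℝ) = (z : ℝ) ^ 4 := by exact_mod_cast hnz
  -- bound on card
  have hcard : (S.card : ℝ) * G ≤ n * Pi + 128 * P * (z : ℝ) ^ 2 := by
    have h1 : (S.card : ℝ) * G ^ 2 ≤ (n * Pi + 128 * P * (z : ℝ) ^ 2) * G := by
      have h2 : 128 * (P : ℝ) * (z : ℝ) ^ 2 ≤ 128 * P * (z : ℝ) ^ 2 * G := by
        have : (0 : ℝ) ≤ 128 * (P : ℝ) * (z : ℝ) ^ 2 := by positivity
        nlinarith
      nlinarith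
    have h3 : ((S.card : ℝ) * G) * G ≤ (n * Pi + 128 * P * (z : ℝ) ^ 2) * G := by
      calc ((S.card : ℝ) * G) * G = (S.card : ℝ) * G ^ 2 := by ring
        _ ≤ _ := h1
    exact le_of_mul_le_mul_right h3 (by linarith)
  have hfin : Real.log n * S.card ≤ 768 * (n * Pi + 128 * P * (z : ℝ) ^ 2) := by
    calc Real.log n * S.card ≤ (768 * G) * S.card :=
          mul_le_mul_of_nonneg_right hgl (Nat.cast_nonneg _)
      _ = 768 * ((S.card : ℝ) * G) := by ring
      _ ≤ _ := mul_le_mul_of_nonneg_left hcard (by norm_num)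
  have hcheb := Chebyshev.pi_ge n
  have hlogn0 : 0 < Real.log n := by rw [hlogn]; linarith
  rw [div_le_iff₀ hlogn0] at hcheb
  by_contra hcon
  push Not at hcon
  have hcon' : (Nat.primeCounting n : ℝ) ≤ 5 * S.card := by exact_mod_cast hcon
  have h5 : n * Real.log 2 - Real.log (n + 1) ≤ 5 * (Real.log n * S.card) := by
    calc n * Real.log 2 - Real.log (n + 1) ≤ Nat.primeCounting n * Real.log n := hcheb
      _ ≤ (5 * S.card) * Real.log n := mul_le_mul_of_nonneg_right hcon' hlogn0.le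
      _ = _ := by ring
  have h6 : Real.log ((n : ℝ) + 1) ≤ 4 * z := by
    rw [hnr]
    have h7 : (z : ℝ) ^ 4 + 1 ≤ ((z : ℝ) + 1) ^ 4 := by
      have : ((z : ℝ) + 1) ^ 4 = z ^ 4 + 1 + (4 * z ^ 3 + 6 * z ^ 2 + 4 * z) := by ring
      rw [this]
      have : (0 : ℝ) ≤ 4 * z ^ 3 + 6 * z ^ 2 + 4 * z := by positivity
      linarith
    calc Real.log ((z : ℝ) ^ 4 + 1) ≤ Real.log (((z : ℝ) + 1) ^ 4) :=
          Real.log_le_log (by positivity) h7
      _ = 4 * Real.log ((z : ℝ) + 1) := by rw [Real.log_pow]; norm_num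
      _ ≤ 4 * z := by
          have := Real.log_le_sub_one_of_pos (show (0 : ℝ) < (z : ℝ) + 1 by linarith)
          linarith
  have hlog2 := Real.log_two_gt_d9
  have hzP' : 6561 * (P : ℝ) ≤ z := by exact_mod_cast hzP
  have hz6561 : (6561 : ℝ) ≤ z := by nlinarith
  rw [hnr] at h5 h6 hfin
  have hz4 : 0 < (z : ℝ) ^ 4 := by positivity
  have hz2 : (0 : ℝ) < (z : ℝ) ^ 2 := by positivity
  -- 5 * 768 * Pi * z^4 ≤ 0.096 z^4
  have h8 : 3840 * ((z : ℝ) ^ 4 * Pi) ≤ 0.096 * (z : ℝ) ^ 4 := by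
    have : (z : ℝ) ^ 4 * Pi ≤ (z : ℝ) ^ 4 * (1 / 40000) :=
      mul_le_mul_of_nonneg_left hPi.le hz4.le
    linarith
  have h9 : 491520 * (P : ℝ) * (z : ℝ) ^ 2 ≤ 0.1 * (z : ℝ) ^ 4 := by
    have h10 : 491520 * (P : ℝ) ≤ 0.1 * (z : ℝ) ^ 2 := by
      have h11 : (6561 * (P : ℝ)) * 6561 ≤ z * z :=
        mul_le_mul hzP' hz6561 (by norm_num) hz0
      rw [sq]
      linarith
    calc 491520 * (P : ℝ) * (z : ℝ) ^ 2 ≤ (0.1 * (z : ℝ) ^ 2) * (z : ℝ) ^ 2 :=
          mul_le_mul_of_nonneg_right h10 hz2.le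
      _ = 0.1 * (z : ℝ) ^ 4 := by ring
  have h10 : 4 * (z : ℝ) ≤ 0.1 * (z : ℝ) ^ 4 := by
    have h11 : (40 : ℝ) ≤ (z : ℝ) ^ 3 := by
      have : (6561 : ℝ) ^ 3 ≤ (z : ℝ) ^ 3 := pow_le_pow_left₀ (by norm_num) hz6561 3
      linarith
    have h12 : (z : ℝ) ^ 4 = z ^ 3 * z := by ring
    have h13 : 40 * (z : ℝ) ≤ z ^ 3 * z := mul_le_mul_of_nonneg_right h11 hz0
    linarith
  have h13 : (z : ℝ) ^ 4 * 0.69 ≤ (z : ℝ) ^ 4 * Real.log 2 :=
    mul_le_mul_of_nonneg_left (by linarith) hz4.le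
  linarith

end Pool.Agent.S4042Aux
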