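import Mathlib

set_option autoImplicit false

namespace Pool.Agent.S4042Aux

open ArithmeticFunction ArithmeticFunction.vonMangoldt Filter Topology

/-- The sum of the reciprocals of the primes that are 3 modulo 4 diverges. -/
theorem not_summable_inv_primes34 :
    ¬ Summable (fun n : ℕ => if n.Prime ∧ n % 4 = 3 then (1 : ℝ) / n else 0) := by
  intro H
  have ha : IsUnit (3 : ZMod 4) := by decide
  obtain ⟨C, hC⟩ := LSeries_residueClass_lower_bound ha
  -- non prime part
  have hnp := summable_residueClass_non_primes_div (3 : ZMod 4)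
  set C0 := ∑' n : ℕ, (if n.Prime then 0 else residueClass (3 : ZMod 4) n) / (n : ℝ) with hC0
  -- the sequence of epsilons
  let e : ℕ → ℝ := fun k => 1 / ((k : ℝ) + 1)
  have he0 : ∀ k, 0 < e k := fun k => by positivity
  have he1 : ∀ k, e k ≤ 1 := fun k => by
    show 1 / ((k : ℝ) + 1) ≤ 1
    rw [div_le_one (by positivity)]
    have : (0 : ℝ) ≤ k := Nat.cast_nonneg k
    linarith
  have het : Tendsto e atTop (𝓝 0) := tendsto_one_div_add_atTop_nhds_zero_nat
  let g : ℕ → ℕ → ℝ := fun k n =>
    e k * ((if n.Prime then residueClass (3 : ZMod 4) n else 0) / (n : ℝ) ^ (1 + e k))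
  have hmem : ∀ n : ℕ, (n : ZMod 4) = 3 ↔ n % 4 = 3 := by
    intro n
    have h3 : ((3 : ZMod 4)) = ((3 : ℕ) : ZMod 4) := by norm_num
    rw [h3, ZMod.natCast_eq_natCast_iff']
  have hgval : ∀ k n : ℕ, g k n = (if n.Prime ∧ n % 4 = 3 then (1 : ℝ) / n else 0) *
      (Real.log ((n : ℝ) ^ (e k)) / (n : ℝ) ^ (e k)) := by
    intro k n
    by_cases hp : n.Prime
    · by_cases h4 : n % 4 = 3
      · have hn0 : (0 : ℝ) < n := by exact_mod_cast hp.pos
        have h1 : residueClass (3 : ZMod 4) n = Real.log n := by
          unfold residueClass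
          rw [Set.indicator_of_mem (by exact (hmem n).2 h4), vonMangoldt_apply_prime hp]
        show e k * ((if n.Prime then residueClass (3 : ZMod 4) n else 0) / (n : ℝ) ^ (1 + e k)) = _
        rw [if_pos hp, if_pos ⟨hp, h4⟩, h1, Real.rpow_add hn0, Real.rpow_one, Real.log_rpow hn0]
        field_simp
      · have h1 : residueClass (3 : ZMod 4) n = 0 := by
          unfold residueClass
          rw [Set.indicator_of_notMem]
          intro h
          exact h4 ((hmem n).1 h)
        show e k * ((if n.Prime then residueClass (3 : ZMod 4) n else 0) / (n : ℝ) ^ (1 + e k)) = _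
        rw [if_pos hp, if_neg (fun h => h4 h.2), h1]
        simp
    · show e k * ((if n.Prime then residueClass (3 : ZMod 4) n else 0) / (n : ℝ) ^ (1 + e k)) = _
      rw [if_neg hp, if_neg (fun h => hp h.1)]
      simp
  have hgb : ∀ k n : ℕ, ‖g k n‖ ≤ (if n.Prime ∧ n % 4 = 3 then (1 : ℝ) / n else 0) := by
    intro k n
    rw [hgval]
    split_ifs with h
    · have hn0 : (0 : ℝ) < n := by exact_mod_cast h.1.pos
      have hn1 : (1 : ℝ) ≤ n := by exact_mod_cast h.1.one_le
      have hy1 : (1 : ℝ) ≤ (n : ℝ) ^ (e k) := Real.one_le_rpow hn1 (he0 k).le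
      have hl0 : 0 ≤ Real.log ((n : ℝ) ^ (e k)) := Real.log_nonneg hy1
      have hl1 : Real.log ((n : ℝ) ^ (e k)) ≤ (n : ℝ) ^ (e k) :=
        (Real.log_le_sub_one_of_pos (by linarith)).trans (by linarith)
      rw [Real.norm_of_nonneg (by positivity)]
      have h2 : Real.log ((n : ℝ) ^ (e k)) / (n : ℝ) ^ (e k) ≤ 1 := by
        rw [div_le_one (by linarith)]; exact hl1
      have h3 : (0 : ℝ) ≤ 1 / n := by positivity
      nlinarith
    · simp
  have hgt : ∀ n : ℕ, Tendsto (fun k => g k n) atTop (𝓝 0) := by
    intro n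
    have h1 : (fun k => g k n) = fun k => e k *
        ((if n.Prime ∧ n % 4 = 3 then Real.log n else 0) / (n : ℝ) ^ (1 + e k)) := by
      funext k
      show e k * ((if n.Prime then residueClass (3 : ZMod 4) n else 0) / (n : ℝ) ^ (1 + e k)) = _
      by_cases hp : n.Prime
      · by_cases h4 : n % 4 = 3
        · have h1 : residueClass (3 : ZMod 4) n = Real.log n := by
            unfold residueClass
            rw [Set.indicator_of_mem (by exact (hmem n).2 h4), vonMangoldt_apply_prime hp]
          rw [if_pos hp, if_pos ⟨hp, h4⟩, h1]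
        · have h1 : residueClass (3 : ZMod 4) n = 0 := by
            unfold residueClass
            rw [Set.indicator_of_notMem]
            intro h
            exact h4 ((hmem n).1 h)
          rw [if_pos hp, if_neg (fun h => h4 h.2), h1]
      · rw [if_neg hp, if_neg (fun h => hp h.1)]
    rw [h1]
    by_cases hc : n.Prime ∧ n % 4 = 3
    · have hn0 : (0 : ℝ) < n := by exact_mod_cast hc.1.pos
      have h2 : Tendsto (fun k => (if n.Prime ∧ n % 4 = 3 then Real.log n else 0) /
          (n : ℝ) ^ (1 + e k)) atTop (𝓝 ((if n.Prime ∧ n % 4 = 3 then Real.log n else 0) /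
          (n : ℝ) ^ (1 + (0 : ℝ)))) := by
        refine Tendsto.div tendsto_const_nhds ?_ (by positivity)
        exact (Real.continuous_const_rpow hn0.ne').continuousAt.tendsto.comp
          (tendsto_const_nhds.add het)
      have h3 := het.mul h2
      rw [zero_mul] at h3
      exact h3
    · simp [hc]
  have hT : Tendsto (fun k => ∑' n, g k n) atTop (𝓝 (∑' _n : ℕ, (0 : ℝ))) :=
    tendsto_tsum_of_dominated_convergence H hgt (Eventually.of_forall hgb)
  rw [tsum_zero] at hT
  -- main inequality
  have key : ∀ k, (1 : ℝ) / 2 - C * e k ≤ C0 * e k + ∑' n, g k n := by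
    intro k
    have hx1 : (1 : ℝ) < 1 + e k := by linarith [he0 k]
    have hxm : (1 + e k) ∈ Set.Ioc (1 : ℝ) 2 := ⟨hx1, by linarith [he1 k]⟩
    have h1 := hC hxm
    have htot : Nat.totient 4 = 2 := by decide
    rw [htot, add_sub_cancel_left] at h1
    have hs1 : Summable (fun n : ℕ => (if n.Prime then 0 else residueClass (3 : ZMod 4) n) /
        (n : ℝ) ^ (1 + e k)) := by
      refine Summable.of_nonneg_of_le (fun n => ?_) (fun n => ?_) hnp
      · have := residueClass_nonneg (3 : ZMod 4) n
        split_ifs <;> positivity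
      · rcases n.eq_zero_or_pos with rfl | hn
        · simp
        · refine div_le_div_of_nonneg_left ?_ (by exact_mod_cast hn) ?_
          · have := residueClass_nonneg (3 : ZMod 4) n
            split_ifs <;> positivity
          · conv_lhs => rw [← Real.rpow_one (n : ℝ)]
            exact Real.rpow_le_rpow_of_exponent_le (by exact_mod_cast hn) hx1.le
    have hs2 : Summable (fun n : ℕ => g k n) :=
      Summable.of_norm_bounded H (hgb k)
    have hs2' : Summable (fun n : ℕ => (if n.Prime then residueClass (3 : ZMod 4) n else 0) /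
        (n : ℝ) ^ (1 + e k)) := by
      have := hs2.mul_left (e k)⁻¹
      refine this.congr (fun n => ?_)
      show (e k)⁻¹ * (e k * _) = _
      rw [← mul_assoc, inv_mul_cancel₀ (he0 k).ne', one_mul]
    have hsplit : ∑' n : ℕ, residueClass (3 : ZMod 4) n / (n : ℝ) ^ (1 + e k) =
        (∑' n : ℕ, (if n.Prime then 0 else residueClass (3 : ZMod 4) n) / (n : ℝ) ^ (1 + e k)) +
        ∑' n : ℕ, (if n.Prime then residueClass (3 : ZMod 4) n else 0) / (n : ℝ) ^ (1 + e k) := by
      rw [← hs1.tsum_add hs2']
      refine tsum_congr (fun n => ?_)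
      rw [← add_div]
      split_ifs <;> simp
    have hle : (∑' n : ℕ, (if n.Prime then 0 else residueClass (3 : ZMod 4) n) /
        (n : ℝ) ^ (1 + e k)) ≤ C0 := by
      refine hs1.tsum_le_tsum (fun n => ?_) hnp
      rcases n.eq_zero_or_pos with rfl | hn
      · simp
      · refine div_le_div_of_nonneg_left ?_ (by exact_mod_cast hn) ?_
        · have := residueClass_nonneg (3 : ZMod 4) n
          split_ifs <;> positivity
        · conv_lhs => rw [← Real.rpow_one (n : ℝ)]
          exact Real.rpow_le_rpow_of_exponent_le (by exact_mod_cast hn) hx1.le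
    have hg : ∑' n, g k n = e k * ∑' n : ℕ, (if n.Prime then residueClass (3 : ZMod 4) n else 0) /
        (n : ℝ) ^ (1 + e k) := by
      rw [← tsum_mul_left]
    rw [hsplit] at h1
    rw [hg]
    have h5 : e k * (((2 : ℕ) : ℝ)⁻¹ / e k - C) = 1 / 2 - C * e k := by
      have := (he0 k).ne'
      field_simp
      push_cast
      ring
    have h6 := mul_le_mul_of_nonneg_left h1 (he0 k).le
    rw [h5] at h6
    nlinarith [he0 k]
  have hlim1 : Tendsto (fun k => (1 : ℝ) / 2 - C * e k) atTop (𝓝 (1 / 2 - C * 0)) :=
    tendsto_const_nhds.sub (tendsto_const_nhds.mul het)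
  have hlim2 : Tendsto (fun k => C0 * e k + ∑' n, g k n) atTop (𝓝 (C0 * 0 + 0)) :=
    (tendsto_const_nhds.mul het).add hT
  have := le_of_tendsto_of_tendsto' hlim1 hlim2 key
  norm_num at this

/-- The product of `1 - 1/p` over a finite set of primes that are 3 modulo 4 can be made
arbitrarily small. -/
theorem exists_small_prod (ε : ℝ) (hε : 0 < ε) :
    ∃ Q : Finset ℕ, (∀ p ∈ Q, p.Prime ∧ p % 4 = 3) ∧ ∏ p ∈ Q, (1 - 1 / (p : ℝ)) < ε := by
  have h := not_summable_inv_primes34
  rw [not_summable_iff_tendsto_nat_atTop_of_nonneg] at h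
  · obtain ⟨N, hN⟩ := (h.eventually_gt_atTop (-Real.log ε)).exists
    refine ⟨(Finset.range N).filter (fun n => n.Prime ∧ n % 4 = 3), fun p hp =>
      (Finset.mem_filter.1 hp).2, ?_⟩
    rw [← Finset.sum_filter] at hN
    calc ∏ p ∈ (Finset.range N).filter (fun n => n.Prime ∧ n % 4 = 3), (1 - 1 / (p : ℝ))
        ≤ ∏ p ∈ (Finset.range N).filter (fun n => n.Prime ∧ n % 4 = 3),
            Real.exp (-(1 / (p : ℝ))) := by
          refine Finset.prod_le_prod (fun p hp => ?_) (fun p hp => ?_)
          · have h2 := (Finset.mem_filter.1 hp).2.1.two_le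
            have h3 : (2 : ℝ) ≤ p := by exact_mod_cast h2
            have : 1 / (p : ℝ) ≤ 1 := by
              rw [div_le_one (by linarith)]; linarith
            linarith
          · have := Real.add_one_le_exp (-(1 / (p : ℝ)))
            linarith
      _ = Real.exp (-∑ p ∈ (Finset.range N).filter (fun n => n.Prime ∧ n % 4 = 3),
            1 / (p : ℝ)) := by
          rw [← Real.exp_sum, Finset.sum_neg_distrib]
      _ < ε := by
          rw [← Real.exp_log hε]
          apply Real.exp_lt_exp.2
          linarith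
  · intro n
    split_ifs <;> positivity

end Pool.Agent.S4042Aux
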